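import Pool.Agent.H17.Cone.Stmts

/-!
# Cones, module SIM: the volume of the standard simplex
-/

set_option autoImplicit false

namespace Pool.Agent.H17.Cone

open MeasureTheory Filter Topology Module

namespace SIM

/-- the simplex of size `r` -/
def simp (n : ℕ) (r : ℝ) : Set (Fin n → ℝ) := {y | (∀ i, 0 ≤ y i) ∧ ∑ i, y i ≤ r}

theorem meas_simp (n : ℕ) (r : ℝ) : MeasurableSet (simp n r) := by
  have h1 : simp n r = (⋂ i, {y : Fin n → ℝ | 0 ≤ y i}) ∩ {y | ∑ i, y i ≤ r} := by
    ext y
    simp only [simp, Set.mem_inter_iff, Set.mem_iInter, Set.mem_ofPred_eq]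
  rw [h1]
  refine MeasurableSet.inter (MeasurableSet.iInter fun i => ?_) ?_
  · exact measurableSet_le measurable_const (measurable_pi_apply i)
  · exact measurableSet_le (Finset.measurable_sum _ fun i _ => measurable_pi_apply i)
      measurable_const

theorem vol_simp : ∀ (n : ℕ) (r : ℝ), 0 ≤ r →
    volume (simp n r) = ENNReal.ofReal (r ^ n / (n.factorial : ℝ)) := by
  intro n
  induction n with
  | zero =>
    intro r hr
    have h1 : simp 0 r = Set.univ := by
      ext y
      simp only [simp, Set.mem_ofPred_eq, Set.mem_univ, iff_true]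
      exact ⟨fun i => i.elim0, by simpa using hr⟩
    rw [h1]
    simp [volume_pi]
  | succ n ih =>
    intro r hr
    have hp := volume_preserving_piFinSuccAbove (fun _ : Fin (n + 1) => ℝ) 0
    have h1 : simp (n + 1) r = (MeasurableEquiv.piFinSuccAbove (fun _ : Fin (n + 1) => ℝ) 0) ⁻¹'
        {q : ℝ × (Fin n → ℝ) | 0 ≤ q.1 ∧ q.2 ∈ simp n (r - q.1)} := by
      ext y
      simp only [simp, Set.mem_ofPred_eq, Set.mem_preimage, MeasurableEquiv.piFinSuccAbove_apply,
        Fin.sum_univ_succ, Fin.insertNthEquiv_symm_apply, Fin.removeNth_apply,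
        Fin.zero_succAbove]
      rw [Fin.forall_fin_succ]
      constructor
      · rintro ⟨⟨h1, h2⟩, h3⟩
        exact ⟨h1, h2, by linarith⟩
      · rintro ⟨h1, h2, h3⟩
        exact ⟨⟨h1, h2⟩, by linarith⟩
    have hm : MeasurableSet {q : ℝ × (Fin n → ℝ) | 0 ≤ q.1 ∧ q.2 ∈ simp n (r - q.1)} := by
      have h2 : {q : ℝ × (Fin n → ℝ) | 0 ≤ q.1 ∧ q.2 ∈ simp n (r - q.1)} =
          {q | 0 ≤ q.1} ∩ ((⋂ i, {q : ℝ × (Fin n → ℝ) | 0 ≤ q.2 i}) ∩
            {q | ∑ i, q.2 i ≤ r - q.1}) := by
        ext q
        simp only [simp, Set.mem_inter_iff, Set.mem_iInter, Set.mem_ofPred_eq]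
      rw [h2]
      refine MeasurableSet.inter ?_ (MeasurableSet.inter (MeasurableSet.iInter fun i => ?_) ?_)
      · exact measurableSet_le measurable_const measurable_fst
      · exact measurableSet_le measurable_const ((measurable_pi_apply i).comp measurable_snd)
      · exact measurableSet_le (Finset.measurable_sum _ fun i _ =>
          (measurable_pi_apply i).comp measurable_snd) (measurable_const.sub measurable_fst)
    rw [h1, hp.measure_preimage hm.nullMeasurableSet, Measure.volume_eq_prod,
      Measure.prod_apply hm]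
    have h3 : ∀ x : ℝ, volume (Prod.mk x ⁻¹'
        {q : ℝ × (Fin n → ℝ) | 0 ≤ q.1 ∧ q.2 ∈ simp n (r - q.1)}) =
        (Set.Icc 0 r).indicator
          (fun x => ENNReal.ofReal ((r - x) ^ n / (n.factorial : ℝ))) x := by
      intro x
      by_cases hx : x ∈ Set.Icc 0 r
      · rw [Set.indicator_of_mem hx, ← ih (r - x) (by linarith [hx.2])]
        congr 1
        ext z
        simp only [Set.mem_preimage, Set.mem_ofPred_eq]
        exact ⟨fun h => h.2, fun h => ⟨hx.1, h⟩⟩
      · rw [Set.indicator_of_notMem hx]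
        have h4 : Prod.mk x ⁻¹'
            {q : ℝ × (Fin n → ℝ) | 0 ≤ q.1 ∧ q.2 ∈ simp n (r - q.1)} = ∅ := by
          ext z
          simp only [Set.mem_preimage, Set.mem_ofPred_eq, Set.mem_empty_iff_false, iff_false]
          rintro ⟨h5, h6, h7⟩
          apply hx
          refine ⟨h5, ?_⟩
          have h8 : 0 ≤ ∑ i, z i := Finset.sum_nonneg fun i _ => h6 i
          linarith
        rw [h4, measure_empty]
    simp_rw [h3]
    rw [lintegral_indicator measurableSet_Icc, ← ofReal_integral_eq_lintegral_ofReal]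
    · congr 1
      rw [integral_Icc_eq_integral_Ioc, ← intervalIntegral.integral_of_le hr]
      have h5 : ∀ x ∈ Set.uIcc 0 r, HasDerivAt
          (fun x : ℝ => -((r - x) ^ (n + 1) / ((n + 1).factorial : ℝ)))
          ((r - x) ^ n / (n.factorial : ℝ)) x := by
        intro x _
        have h6 : HasDerivAt (fun x : ℝ => r - x) (-1) x := (hasDerivAt_id' x).const_sub r
        have h7 := ((h6.pow (n + 1)).div_const ((n + 1).factorial : ℝ)).neg
        refine h7.congr_deriv ?_
        rw [Nat.factorial_succ]
        have h8 : (n.factorial : ℝ) ≠ 0 := by exact_mod_cast n.factorial_ne_zero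
        have h9 : ((n : ℝ) + 1) ≠ 0 := by positivity
        push_cast
        field_simp
      rw [intervalIntegral.integral_eq_sub_of_hasDerivAt h5]
      · simp
      · apply Continuous.intervalIntegrable
        fun_prop
    · apply Continuous.integrableOn_Icc
      fun_prop
    · refine (ae_restrict_iff' measurableSet_Icc).2 (Eventually.of_forall fun x hx => ?_)
      have : 0 ≤ r - x := by linarith [hx.2]
      simp only [Pi.zero_apply]
      positivity

end SIM

open SIM in
theorem sim_thm : SIMStmt := by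
  intro w
  let L : E3 ≃L[ℝ] (Fin 3 → ℝ) := w.equivFun.toContinuousLinearEquiv
  let ν : Measure (Fin 3 → ℝ) := Measure.map L volume
  have : ν.IsAddHaarMeasure := L.isAddHaarMeasure_map volume
  have hc := Measure.isAddLeftInvariant_eq_smul ν (volume : Measure (Fin 3 → ℝ))
  generalize Measure.addHaarScalarFactor ν (volume : Measure (Fin 3 → ℝ)) = c at hc
  have hmL : Measurable L := L.continuous.measurable
  have h1 : volume {u : E3 | (∀ i, 0 ≤ w.repr u i) ∧
      w.repr u 0 + w.repr u 1 + w.repr u 2 ≤ 1} = ν (simp 3 1) := by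
    rw [Measure.map_apply hmL (meas_simp 3 1)]
    congr 1
    ext u
    simp only [Set.mem_ofPred_eq, Set.mem_preimage, simp, Fin.sum_univ_three]
    rfl
  have h2 : volume (parallelepiped w) = ν (Set.univ.pi fun _ => Set.Icc (0 : ℝ) 1) := by
    rw [Measure.map_apply hmL (MeasurableSet.univ_pi fun _ => measurableSet_Icc),
      parallelepiped_basis_eq]
    congr 1
    ext u
    simp only [Set.mem_ofPred_eq, Set.mem_preimage, Set.mem_pi, Set.mem_univ, true_imp_iff]
    rfl
  have h3 : volume (Set.univ.pi fun _ : Fin 3 => Set.Icc (0 : ℝ) 1) = 1 := by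
    rw [volume_pi_pi]
    simp
  rw [h1, h2, hc, Measure.smul_apply, Measure.smul_apply, vol_simp 3 1 zero_le_one, h3,
    ENNReal.smul_def, ENNReal.smul_def, smul_eq_mul, smul_eq_mul, ENNReal.toReal_mul,
    ENNReal.toReal_mul, ENNReal.toReal_ofReal (by positivity)]
  norm_num [Nat.factorial]
  ring

end Pool.Agent.H17.Cone
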